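import Mathlib
import Pool.Agent.Lib.MP_6567fb_al.Main

set_option autoImplicit false

/-!
# A common basis for groups of generalised Dehn twists

Let `F` be a free group of finite rank `n` and let `G ≤ Aut(F)` be finitely generated, such that every
element of `G` is a generalised Dehn twist with respect to some ordered basis of `F` (which may depend
on the element). Then there is one ordered basis `a₁, …, aₙ` such that

* every `φ ∈ G` which acts trivially on `H₁(F; ℤ/3)` satisfies `φ(a₁) = a₁` and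
  `φ(aᵢ) = wᵢ aᵢ vᵢ` with `wᵢ, vᵢ ∈ ⟨a₁, …, aᵢ₋₁⟩` for `2 ≤ i ≤ n` (exponent `k = 1`);
* these elements form a normal subgroup `H` of `G` whose index divides `|GLₙ(ℤ/3)|`;
* every element of `G` itself is a generalised Dehn twist with respect to this basis, and the index
  `[G : H]` is an exponent which works for all elements of `G`.

The basis element written `aᵢ` in the text is `a (i - 1)` in Lean, since `Fin n = {0, …, n - 1}`.
-/

namespace Pool.Agent.Results.MP_6567fb_al.CommonBasis

variable {n : ℕ} {F : Type*} [Group F]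

/-- `ψ` is triangular with respect to the ordered basis `a`: `ψ(a₁) = a₁`, and for `2 ≤ i ≤ n` we have
`ψ(aᵢ) = wᵢ aᵢ vᵢ` with `wᵢ, vᵢ` in the subgroup `⟨a₁, …, aᵢ₋₁⟩`. -/
def Triangular (a : FreeGroupBasis (Fin n) F) (ψ : MulAut F) : Prop :=
  (∀ i : Fin n, (i : ℕ) = 0 → ψ (a i) = a i) ∧
    ∀ i : Fin n, 0 < (i : ℕ) →
      ∃ w ∈ Subgroup.closure {x : F | ∃ j : Fin n, j < i ∧ a j = x},
        ∃ v ∈ Subgroup.closure {x : F | ∃ j : Fin n, j < i ∧ a j = x},
          ψ (a i) = w * a i * v

/-- `φ` is a generalised Dehn twist with respect to the ordered basis `a`: some power `φ ^ k`, `k ≥ 1`,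
is triangular with respect to `a`. -/
def IsGenDehnTwist (a : FreeGroupBasis (Fin n) F) (φ : MulAut F) : Prop :=
  ∃ k : ℕ, 1 ≤ k ∧ Triangular a (φ ^ k)

/-- the subgroup of all elements of `G` which act trivially on `H₁(F; ℤ/3)`, that is, which preserve
every homomorphism from `F` to `ℤ/3` -/
def levelThree (G : Subgroup (MulAut F)) : Subgroup (MulAut F) where
  carrier := {φ | φ ∈ G ∧ ∀ (χ : F →* Multiplicative (ZMod 3)) (x : F), χ (φ x) = χ x}
  one_mem' := ⟨G.one_mem, fun _ _ => rfl⟩
  mul_mem' := fun {a b} ha hb =>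
    ⟨G.mul_mem ha.1 hb.1, fun χ x => (ha.2 χ (b x)).trans (hb.2 χ x)⟩
  inv_mem' := fun {a} ha => ⟨G.inv_mem ha.1, fun χ x => by
    have := ha.2 χ (a⁻¹ x)
    rw [MulAut.apply_inv_self] at this
    exact this.symm⟩

/-! ### the action on `Hom(F, ℤ/3)` by matrices -/

/-- the character with given values on the basis -/
noncomputable def chr (e : FreeGroupBasis (Fin n) F) (c : Fin n → ZMod 3) :
    F →* Multiplicative (ZMod 3) :=
  e.lift fun i => Multiplicative.ofAdd (c i)

theorem chr_apply (e : FreeGroupBasis (Fin n) F) (c : Fin n → ZMod 3) (i : Fin n) :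
    (chr e c (e i)).toAdd = c i := by
  unfold chr
  rw [FreeGroupBasis.lift_apply_apply, FreeGroupBasis.repr_apply_coe, FreeGroup.lift_apply_of]
  rfl

theorem eq_chr (e : FreeGroupBasis (Fin n) F) (χ : F →* Multiplicative (ZMod 3)) :
    χ = chr e fun i => (χ (e i)).toAdd := by
  refine e.ext_hom _ _ fun i => ?_
  apply Multiplicative.toAdd.injective
  rw [chr_apply]

theorem chr_sum (e : FreeGroupBasis (Fin n) F) (c : Fin n → ZMod 3) (x : F) :
    (chr e c x).toAdd = ∑ j, (chr e (Pi.single j 1) x).toAdd * c j := by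
  let f : F →* Multiplicative (ZMod 3) :=
    { toFun := fun x => Multiplicative.ofAdd (∑ j, (chr e (Pi.single j 1) x).toAdd * c j)
      map_one' := by simp
      map_mul' := fun x y => by
        simp only [map_mul, toAdd_mul, add_mul, Finset.sum_add_distrib, ofAdd_add] }
  have hf : chr e c = f := by
    refine e.ext_hom _ _ fun i => ?_
    apply Multiplicative.toAdd.injective
    rw [chr_apply]
    change c i = ∑ j, (chr e (Pi.single j 1) (e i)).toAdd * c j
    simp only [chr_apply]
    rw [Finset.sum_eq_single i]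
    · simp
    · intro j _ hj
      rw [Pi.single_eq_of_ne (Ne.symm hj), zero_mul]
    · intro h; exact absurd (Finset.mem_univ i) h
  rw [hf]
  rfl

/-- the matrix of `φ⁻¹` on `Hom(F, ℤ/3)` -/
noncomputable def mat (e : FreeGroupBasis (Fin n) F) (φ : MulAut F) :
    Matrix (Fin n) (Fin n) (ZMod 3) :=
  Matrix.of fun i j => (chr e (Pi.single j 1) (φ⁻¹ (e i))).toAdd

theorem mat_one (e : FreeGroupBasis (Fin n) F) : mat e 1 = 1 := by
  ext i j
  change (chr e (Pi.single j 1) ((1 : MulAut F)⁻¹ (e i))).toAdd = _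
  rw [inv_one, MulAut.one_apply, chr_apply, Matrix.one_apply, Pi.single_apply]

theorem mat_mul (e : FreeGroupBasis (Fin n) F) (φ ψ : MulAut F) :
    mat e (φ * ψ) = mat e φ * mat e ψ := by
  ext i j
  rw [Matrix.mul_apply]
  change (chr e (Pi.single j 1) ((φ * ψ)⁻¹ (e i))).toAdd
    = ∑ k, (chr e (Pi.single k 1) (φ⁻¹ (e i))).toAdd * mat e ψ k j
  rw [← chr_sum e (fun k => mat e ψ k j) (φ⁻¹ (e i))]
  have h : (chr e fun k => mat e ψ k j)
      = (chr e (Pi.single j 1)).comp (ψ⁻¹ : MulAut F).toMonoidHom := by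
    refine e.ext_hom _ _ fun k => ?_
    apply Multiplicative.toAdd.injective
    rw [chr_apply]
    rfl
  rw [h, mul_inv_rev, MulAut.mul_apply]
  rfl

/-- the action on `Hom(F, ℤ/3)` as a homomorphism to `GLₙ(ℤ/3)` -/
noncomputable def rep (e : FreeGroupBasis (Fin n) F) :
    MulAut F →* Matrix.GeneralLinearGroup (Fin n) (ZMod 3) :=
  MonoidHom.toHomUnits
    { toFun := mat e
      map_one' := mat_one e
      map_mul' := mat_mul e }

theorem rep_ker (e : FreeGroupBasis (Fin n) F) (φ : MulAut F) :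
    φ ∈ (rep e).ker ↔ ∀ (χ : F →* Multiplicative (ZMod 3)) (x : F), χ (φ x) = χ x := by
  have h0 : φ ∈ (rep e).ker ↔ mat e φ = 1 := by
    rw [MonoidHom.mem_ker]
    exact ⟨fun h => congrArg Units.val h, fun h => Units.ext h⟩
  rw [h0]
  constructor
  · intro h χ x
    have h1 : χ.comp (φ⁻¹ : MulAut F).toMonoidHom = χ := by
      refine e.ext_hom _ _ fun i => ?_
      apply Multiplicative.toAdd.injective
      change (χ (φ⁻¹ (e i))).toAdd = (χ (e i)).toAdd
      have h2 := chr_sum e (fun i => (χ (e i)).toAdd) (φ⁻¹ (e i))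
      rw [← eq_chr e χ] at h2
      rw [h2]
      have h3 : ∀ j, (chr e (Pi.single j 1) (φ⁻¹ (e i))).toAdd
          = (1 : Matrix (Fin n) (Fin n) (ZMod 3)) i j := fun j => by rw [← h]; rfl
      simp only [h3, Matrix.one_apply]
      simp
    have h4 := DFunLike.congr_fun h1 (φ x)
    change χ (φ⁻¹ (φ x)) = χ (φ x) at h4
    rw [MulAut.inv_apply_self] at h4
    exact h4.symm
  · intro h
    ext i j
    change (chr e (Pi.single j 1) (φ⁻¹ (e i))).toAdd = _
    rw [← h _ (φ⁻¹ (e i)), MulAut.apply_inv_self, chr_apply, Matrix.one_apply, Pi.single_apply]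

theorem levelThree_eq (e : FreeGroupBasis (Fin n) F) (G : Subgroup (MulAut F)) :
    levelThree G = G ⊓ (rep e).ker := by
  ext φ
  rw [Subgroup.mem_inf, rep_ker]
  rfl

theorem relIndex_eq (e : FreeGroupBasis (Fin n) F) (G : Subgroup (MulAut F)) :
    (levelThree G).relIndex G = Nat.card (G.map (rep e)) := by
  rw [levelThree_eq e, Subgroup.inf_relIndex_left, Subgroup.relIndex_ker]

/-! ### transport to the free group on `Fin n` -/

open Pool.MP6567.A Pool.Agent.Lib.MP_6567fb_al

/-- the common basis for the standard free group -/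
theorem common_std (n : ℕ) (G : Subgroup (MulAut (FreeGroup (Fin n)))) (hG : G.FG)
    (h : ∀ φ ∈ G, ∃ b : FreeGroupBasis (Fin n) (FreeGroup (Fin n)),
        ∃ k : ℕ, 0 < k ∧ ∀ i : Fin n,
          ∃ w ∈ Subgroup.closure (Set.image (fun j => b j) {j : Fin n | j < i}),
          ∃ v ∈ Subgroup.closure (Set.image (fun j => b j) {j : Fin n | j < i}),
            (φ ^ k) (b i) = w * b i * v) :
    ∃ b : FreeGroupBasis (Fin n) (FG n), ∀ g ∈ G3 G, Tri b g := by
  have hT := G3_tri G h
  have hc : Ctx (prG (G3 G)) := gam_ctx (G3 G) (G3_fg G hG) (fun g hg => hg.2) hT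
  have hf : ∀ g : G3 G, HonestFlag (prG (G3 G)) (inG (G3 G) g) := fun g => by
    obtain ⟨b, hb⟩ := hT g g.2
    exact honest_of_tri _ g b hb
  exact tri_of_common (G3 G)
    (common_flag hc (theoremK hc) (fun g => SemidirectProduct.rightHom_inr g) (bstrees (G3 G)) hf)

theorem image_set {F' : Type*} [Group F'] (a : FreeGroupBasis (Fin n) F) (E : F ≃* F') (i : Fin n) :
    Set.image (fun j => (a.map E) j) {j : Fin n | j < i}
      = E.toMonoidHom '' {x : F | ∃ j : Fin n, j < i ∧ a j = x} := by
  ext y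
  constructor
  · rintro ⟨j, hj, rfl⟩
    exact ⟨a j, ⟨j, hj, rfl⟩, rfl⟩
  · rintro ⟨x, ⟨j, hj, rfl⟩, rfl⟩
    exact ⟨j, hj, rfl⟩

/-- **The common basis.** Let `F` be a free group of finite rank `n` (`e` is some basis of `F`) and let `G`
be a finitely generated subgroup of `Aut(F)` such that every element of `G` is a generalised Dehn twist
with respect to some basis of `F`, which may depend on the element. The elements of `G` which act trivially
on `H₁(F; ℤ/3)` form a normal subgroup of finite index in `G`, the index divides `|GLₙ(ℤ/3)|`, and there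
is a single basis `a` of `F` such that

* all elements of this subgroup are triangular with respect to `a` (exponent `1`);
* for every `φ ∈ G` the power of `φ` whose exponent is the index is triangular with respect to `a`;
* hence every element of `G` is a generalised Dehn twist with respect to `a`. -/
theorem result {n : ℕ} {F : Type*} [Group F] (e : FreeGroupBasis (Fin n) F)
    (G : Subgroup (MulAut F)) (hG : G.FG)
    (h : ∀ φ ∈ G, ∃ a : FreeGroupBasis (Fin n) F, IsGenDehnTwist a φ) :
    (levelThree G ≤ G ∧ ((levelThree G).subgroupOf G).Normal ∧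
      ((levelThree G).subgroupOf G).FiniteIndex ∧
      (levelThree G).relIndex G ∣ Nat.card (Matrix.GeneralLinearGroup (Fin n) (ZMod 3))) ∧
    ∃ a : FreeGroupBasis (Fin n) F,
      (∀ φ ∈ levelThree G, Triangular a φ) ∧
      (∀ φ ∈ G, Triangular a (φ ^ (levelThree G).relIndex G)) ∧
      ∀ φ ∈ G, IsGenDehnTwist a φ := by
  have hcard : (levelThree G).relIndex G = Nat.card (G.map (rep e)) := relIndex_eq e G
  have hne : (levelThree G).relIndex G ≠ 0 := by
    rw [hcard]
    exact Nat.card_pos.ne'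
  have hpow : ∀ φ ∈ G, φ ^ (levelThree G).relIndex G ∈ levelThree G := by
    intro φ hφ
    rw [levelThree_eq e, Subgroup.mem_inf, MonoidHom.mem_ker, map_pow]
    refine ⟨G.pow_mem hφ _, ?_⟩
    rw [← levelThree_eq e, hcard]
    have h1 := pow_card_eq_one' (x := (⟨rep e φ, Subgroup.mem_map_of_mem _ hφ⟩ : G.map (rep e)))
    exact congrArg Subtype.val h1
  refine ⟨⟨fun φ hφ => hφ.1, ?_, ⟨hne⟩, ?_⟩, ?_⟩
  · rw [levelThree_eq e, Subgroup.inf_subgroupOf_left]
    infer_instance
  · rw [hcard]
    exact Subgroup.card_subgroup_dvd_card _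
  -- transport
  let E : F ≃* FreeGroup (Fin n) := e.repr
  let G' : Subgroup (MulAut (FreeGroup (Fin n))) := G.map (MulAut.congr E).toMonoidHom
  have hG' : G'.FG := (Subgroup.fg_iff_submonoid_fg _).2
    (((Subgroup.fg_iff_submonoid_fg _).1 hG).map (MulAut.congr E).toMonoidHom)
  have hG3 : ∀ φ ∈ levelThree G, MulAut.congr E φ ∈ G3 G' := by
    intro φ hφ
    refine ⟨Subgroup.mem_map_of_mem _ hφ.1, fun χ x => ?_⟩
    have := hφ.2 (χ.comp E.toMonoidHom) (E.symm x)
    change χ (E (φ (E.symm x))) = χ (E (E.symm x)) at this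
    rw [MulEquiv.apply_symm_apply] at this
    exact this
  obtain ⟨b, hb⟩ := common_std n G' hG' (by
    intro φ' hφ'
    obtain ⟨φ, hφ, rfl⟩ := hφ'
    obtain ⟨a, k, hk, ha0, ha⟩ := h φ hφ
    refine ⟨a.map E, k, hk, fun i => ?_⟩
    have hE : ((MulAut.congr E).toMonoidHom φ ^ k) ((a.map E) i) = E ((φ ^ k) (a i)) := by
      rw [← map_pow]
      change E ((φ ^ k) (E.symm (E (a i)))) = _
      rw [MulEquiv.symm_apply_apply]
    rw [hE, image_set, ← MonoidHom.map_closure]
    rcases Nat.eq_zero_or_pos (i : ℕ) with hi | hi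
    · refine ⟨1, Subgroup.one_mem _, 1, Subgroup.one_mem _, ?_⟩
      rw [ha0 i hi, one_mul, mul_one]
      rfl
    · obtain ⟨w, hw, v, hv, hwv⟩ := ha i hi
      refine ⟨E w, Subgroup.mem_map_of_mem _ hw, E v, Subgroup.mem_map_of_mem _ hv, ?_⟩
      rw [hwv, map_mul, map_mul]
      rfl)
  have hset : ∀ i : Fin n, Subgroup.closure (Set.image (fun j => b j) {j : Fin n | j < i})
      = (Subgroup.closure {x : F | ∃ j : Fin n, j < i ∧ (b.map E.symm) j = x}).map
        E.toMonoidHom := by
    intro i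
    rw [MonoidHom.map_closure, ← image_set]
    have h2 : ∀ j, ((b.map E.symm).map E) j = b j := by
      intro j
      change E (E.symm (b j)) = b j
      rw [MulEquiv.apply_symm_apply]
    simp only [h2]
  have htri : ∀ φ ∈ levelThree G, Triangular (b.map E.symm) φ := by
    intro φ hφ
    have key : ∀ i : Fin n,
        ∃ w ∈ Subgroup.closure {x : F | ∃ j : Fin n, j < i ∧ (b.map E.symm) j = x},
        ∃ v ∈ Subgroup.closure {x : F | ∃ j : Fin n, j < i ∧ (b.map E.symm) j = x},
          φ ((b.map E.symm) i) = w * (b.map E.symm) i * v := by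
      intro i
      obtain ⟨w, hw, v, hv, hwv⟩ := hb _ (hG3 φ hφ) i
      rw [low_eq, hset i] at hw hv
      obtain ⟨w, hw, rfl⟩ := hw
      obtain ⟨v, hv, rfl⟩ := hv
      refine ⟨w, hw, v, hv, ?_⟩
      apply E.injective
      change E (φ (E.symm (b i))) = E w * b i * E v at hwv
      change E (φ (E.symm (b i))) = _
      rw [hwv, map_mul, map_mul]
      change _ = E w * E (E.symm (b i)) * E v
      rw [MulEquiv.apply_symm_apply]
    refine ⟨fun i hi => ?_, fun i _ => key i⟩
    obtain ⟨w, hw, v, hv, hwv⟩ := key i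
    have hemp : {x : F | ∃ j : Fin n, j < i ∧ (b.map E.symm) j = x} = ∅ := by
      rw [Set.eq_empty_iff_forall_notMem]
      rintro x ⟨j, hj, -⟩
      exact absurd (Fin.lt_def.1 hj) (by omega)
    rw [hemp, Subgroup.closure_empty, Subgroup.mem_bot] at hw hv
    rw [hwv, hw, hv, one_mul, mul_one]
  exact ⟨b.map E.symm, htri, fun φ hφ => htri _ (hpow φ hφ),
    fun φ hφ => ⟨_, Nat.one_le_iff_ne_zero.2 hne, htri _ (hpow φ hφ)⟩⟩

end Pool.Agent.Results.MP_6567fb_al.CommonBasis
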